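import Pool.Agent.D0H7.CVP.Low

/-!
# MP_830418_an: convolvers of groups which contain a free group of rank two

Let `G` be a discrete group. A function `f : G → ℂ` is a `p`-convolver if `‖f * ξ‖_p ≤ C ‖ξ‖_p` for all finitely supported
`ξ`, and `f* (x) = conj (f (x⁻¹))`. The question is whether every non-amenable group `G` has, for every `p ≠ 2`, a
`p`-convolver `f` such that `f*` is not a `p`-convolver.

**Theorem.** Let `G` be a group which contains a free subgroup of rank two. There is one function `f : G → [0, ∞)` such that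
for all `1 < p < ∞`
* `f` is a `p`-convolver if and only if `p ≥ 2`,
* `f*` is a `p`-convolver if and only if `p ≤ 2`.

So for these groups the answer to Q1 is yes, for all `p ≠ 2` (take `f` for `p > 2` and `f*` for `p < 2`). The theorem applies to
all non-amenable linear groups, to all non-elementary hyperbolic groups, mapping class groups, non-amenable one-relator groups, …

Proof. Let `α, β` be free generators, `t_i = β^(i+1) α β^(-i-1)` and `E = {t_i α^j : i < m, j < L}`. Let `U_i⁺` and `U_i⁻` be the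
sets of the words which begin with `β^(i+1) α` and with `β^(i+1) α⁻¹` (in the cosets of the free group). Then
`t_i (G ∖ U_i⁻) ⊆ U_i⁺`, the sets `U_i⁺` are disjoint, and so are the sets `α^(-j) U_i⁻` (all `i` and all `j ≥ 0`). In
`1_E * ξ = ∑_(i,j) t_i α^j ξ` the part of `ξ` with `α^j x ∉ U_i⁻` has disjoint images for different `i`, and the other parts are
restrictions of `ξ` to disjoint sets, whence `‖1_E * ξ‖_p ^ p ≤ 2^(p-1) (m L^p + (m L)^(p-1)) ‖ξ‖_p ^ p` for `p ≥ 1`. On the
other hand `1_E* * 1_{t_i α^l : i < m, l < 2 L} ≥ m L` at the points `α^s`, `0 ≤ s < L`, so the norm of `1_E*` on `ℓ^p` is at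
least `2^(-1/p) m^(1-1/p) L`. With `m_n = 2^(2 n²)` and `L_n = 2^(n³)` put `f = ∑_n 2^(-2n) m_n^(-1/2) L_n^(-1) 1_(E_n)`.
Finally `f` is a `p`-convolver if and only if `f*` is a `p'`-convolver, `1/p + 1/p' = 1`.
-/

set_option autoImplicit false

namespace Pool.Agent.Results.MP_830418_an.FreeSubgroups

/-- `f : G → ℂ` is a `p`-convolver: there is a constant `C` such that for every finitely supported `ξ : G → ℂ` the function
`(f * ξ)(g) = ∑_k f (g k⁻¹) ξ(k)` is in `ℓ^p(G)` and `∑_g |(f * ξ)(g)|^p ≤ C ∑_k |ξ(k)|^p`. -/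
def IsConvolver {G : Type*} [Group G] (p : ℝ) (f : G → ℂ) : Prop :=
  ∃ C : ℝ, ∀ ξ : G →₀ ℂ,
    Summable (fun g : G => ‖∑ k ∈ ξ.support, f (g * k⁻¹) * ξ k‖ ^ p) ∧
    ∑' g : G, ‖∑ k ∈ ξ.support, f (g * k⁻¹) * ξ k‖ ^ p ≤ C * ∑ k ∈ ξ.support, ‖ξ k‖ ^ p

/-- Every group `G` which contains a free group of rank two has one function `f : G → [0, ∞)` such that, for all
`1 < p < ∞`, `f` is a `p`-convolver exactly for `p ≥ 2` and `f*` is a `p`-convolver exactly for `p ≤ 2`. -/
theorem result (G : Type*) [Group G] (φ : FreeGroup (Fin 2) →* G) (hφ : Function.Injective φ) :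
    ∃ f : G → ℝ, (∀ x, 0 ≤ f x) ∧ ∀ p : ℝ, 1 < p →
      (IsConvolver p (fun x => (f x : ℂ)) ↔ 2 ≤ p) ∧
      (IsConvolver p (fun x => starRingEnd ℂ (f x⁻¹ : ℂ)) ↔ p ≤ 2) := by
  obtain ⟨P⟩ := Pool.Agent.D0H7.CVP.exists_PP φ hφ
  exact ⟨Pool.Agent.D0H7.CVP.ff P, Pool.Agent.D0H7.CVP.ff_nonneg P,
    fun p hp => Pool.Agent.D0H7.CVP.main P hp⟩

end Pool.Agent.Results.MP_830418_an.FreeSubgroups
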